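import Pool.Agent.Y752.QF.Stm

set_option autoImplicit false

/-! Project QF: mean squares over the numbers. -/

namespace Pool.Agent.Y986.QF

open Set Filter Complex
open Pool.Agent.Y752.QF

noncomputable section

lemma cv_norm_le (p : DC) (n : ℕ) : ‖cv p n‖ ≤ 1 := DirichletCharacter.norm_le_one _ _

lemma QFs_mem (h2 : S_IN) (b : Bool) (X : ℕ) (p : DC) : p ∈ QFs b X ↔ p ∈ QFset b X := by
  unfold QFs
  rw [dif_pos (h2 b X).1, Set.Finite.mem_toFinset]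

lemma QFs_card (h2 : S_IN) (b : Bool) (X : ℕ) : (QFs b X).card ≤ X := by
  have h : (QFs b X).card ≤ (Finset.Icc 1 X).card := by
    refine Finset.card_le_card_of_injOn (fun p => p.1) ?_ ?_
    · intro p hp
      have hp' := (QFs_mem h2 b X p).mp hp
      have h3 := hp'.1
      have h4 := hp'.2.1
      rw [Finset.mem_coe, Finset.mem_Icc]
      exact ⟨Nat.one_le_iff_ne_zero.mpr h3, h4⟩
    · intro p hp p' hp' h
      exact (h2 b X).2 p ((QFs_mem h2 b X p).mp hp) p' ((QFs_mem h2 b X p').mp hp') h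
  simpa using h

theorem LS (h1 : S_CC1) (h2 : S_IN) : S_LS := by
  obtain ⟨C, hC, hcc⟩ := h1
  refine ⟨1 + 2 * C, by positivity, fun b X M hX => ?_⟩
  classical
  have hX1 : (1:ℝ) ≤ X := by exact_mod_cast hX
  have hlX : 0 ≤ Real.log X := Real.log_nonneg hX1
  set F := QFs b X with hF
  set E : ℝ := C * X * (1 + 2 * Real.log X) with hE
  have hE0 : 0 ≤ E := by positivity
  have hpair : ∀ p ∈ F, ∀ p' ∈ F, ‖∑ m ∈ Finset.Ioc M (2 * M), cv p m * (starRingEnd ℂ) (cv p' m)‖ ≤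
      (if p = p' then (M : ℝ) else 0) + E := by
    intro p hp p' hp'
    have hq := (QFs_mem h2 b X p).mp hp
    have hq' := (QFs_mem h2 b X p').mp hp'
    by_cases h : p = p'
    · rw [if_pos h]
      refine (norm_sum_le _ _).trans ?_
      have h3 : ∀ m ∈ Finset.Ioc M (2 * M), ‖cv p m * (starRingEnd ℂ) (cv p' m)‖ ≤ 1 := by
        intro m _
        rw [norm_mul, RCLike.norm_conj]
        exact mul_le_one₀ (cv_norm_le p m) (norm_nonneg _) (cv_norm_le p' m)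
      refine (Finset.sum_le_sum h3).trans ?_
      rw [Finset.sum_const, Nat.card_Ioc, nsmul_eq_mul, mul_one]
      have : ((2 * M - M : ℕ) : ℝ) = M := by
        rw [two_mul, Nat.add_sub_cancel]
      rw [this]
      linarith
    · rw [if_neg h, zero_add]
      have hne : p.1 ≠ p'.1 := fun h' => h ((h2 b X).2 p hq p' hq' h')
      have h3 := hcc p p' hq.1 hq'.1 hq.2.2.1 hq'.2.2.1 hne 0 M (2 * M) (by omega)
      simp only [add_zero] at h3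
      refine h3.trans ?_
      have hp0 : (1:ℝ) ≤ p.1 := by exact_mod_cast Nat.one_le_iff_ne_zero.mpr hq.1
      have hp0' : (1:ℝ) ≤ p'.1 := by exact_mod_cast Nat.one_le_iff_ne_zero.mpr hq'.1
      have hpX : (p.1 : ℝ) ≤ X := by exact_mod_cast hq.2.1
      have hpX' : (p'.1 : ℝ) ≤ X := by exact_mod_cast hq'.2.1
      have h4 : Real.sqrt (p.1 * p'.1) ≤ X := by
        rw [Real.sqrt_le_left (by positivity)]
        nlinarith
      have h5 : Real.log (p.1 * p'.1) ≤ 2 * Real.log X := by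
        rw [Real.log_mul (by positivity) (by positivity)]
        have := Real.log_le_log (by linarith) hpX
        have := Real.log_le_log (by linarith) hpX'
        linarith
      have h6 : 0 ≤ Real.log (p.1 * p'.1) := Real.log_nonneg (by nlinarith)
      rw [hE]
      have h7 : 0 ≤ 1 + Real.log (p.1 * p'.1) := by linarith
      calc C * Real.sqrt (p.1 * p'.1) * (1 + Real.log (p.1 * p'.1)) ≤ C * X * (1 + Real.log (p.1 * p'.1)) := by gcongr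
        _ ≤ C * X * (1 + 2 * Real.log X) := by gcongr
  have hsum : ((∑ m ∈ Finset.Ioc M (2 * M), ‖∑ p ∈ F, cv p m‖ ^ 2 : ℝ) : ℂ) =
      ∑ p ∈ F, ∑ p' ∈ F, ∑ m ∈ Finset.Ioc M (2 * M), cv p m * (starRingEnd ℂ) (cv p' m) := by
    have e1 : ∀ m : ℕ, ((‖∑ p ∈ F, cv p m‖ ^ 2 : ℝ) : ℂ) =
        ∑ p ∈ F, ∑ p' ∈ F, cv p m * (starRingEnd ℂ) (cv p' m) := by
      intro m
      push_cast
      rw [← Complex.mul_conj', map_sum, Finset.sum_mul_sum]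
    push_cast
    push_cast at e1
    rw [Finset.sum_congr rfl fun m _ => e1 m, Finset.sum_comm]
    refine Finset.sum_congr rfl fun p _ => ?_
    rw [Finset.sum_comm]
  have hnn : 0 ≤ ∑ m ∈ Finset.Ioc M (2 * M), ‖∑ p ∈ F, cv p m‖ ^ 2 :=
    Finset.sum_nonneg fun _ _ => pow_nonneg (norm_nonneg _) 2
  have h3 : ∑ m ∈ Finset.Ioc M (2 * M), ‖∑ p ∈ F, cv p m‖ ^ 2 =
      ‖∑ p ∈ F, ∑ p' ∈ F, ∑ m ∈ Finset.Ioc M (2 * M), cv p m * (starRingEnd ℂ) (cv p' m)‖ := by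
    rw [← hsum, Complex.norm_real, Real.norm_of_nonneg hnn]
  rw [h3]
  have hcard : (F.card : ℝ) ≤ X := by exact_mod_cast QFs_card h2 b X
  calc ‖∑ p ∈ F, ∑ p' ∈ F, ∑ m ∈ Finset.Ioc M (2 * M), cv p m * (starRingEnd ℂ) (cv p' m)‖
      ≤ ∑ p ∈ F, ∑ p' ∈ F, ‖∑ m ∈ Finset.Ioc M (2 * M), cv p m * (starRingEnd ℂ) (cv p' m)‖ :=
        (norm_sum_le _ _).trans (Finset.sum_le_sum fun p _ => norm_sum_le _ _)
    _ ≤ ∑ p ∈ F, ∑ p' ∈ F, ((if p = p' then (M : ℝ) else 0) + E) :=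
        Finset.sum_le_sum fun p hp => Finset.sum_le_sum fun p' hp' => hpair p hp p' hp'
    _ = ∑ p ∈ F, ((M : ℝ) + F.card * E) := by
        refine Finset.sum_congr rfl fun p hp => ?_
        rw [Finset.sum_add_distrib, Finset.sum_ite_eq F p, if_pos hp, Finset.sum_const, nsmul_eq_mul]
    _ = F.card * (M + F.card * E) := by rw [Finset.sum_const, nsmul_eq_mul]
    _ ≤ X * (M + X * E) := by gcongr
    _ ≤ (1 + 2 * C) * (X * M + (X : ℝ) ^ 3 * (1 + Real.log X)) := by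
        rw [hE]
        have a1 : 0 ≤ C * ((X : ℝ) * M) := by positivity
        have a2 : 0 ≤ (X : ℝ) ^ 3 * (1 + Real.log X) := by positivity
        have a3 : 0 ≤ C * (X : ℝ) ^ 3 := by positivity
        nlinarith [a1, a2, a3]

/-- powers of logarithms -/
lemma logp {δ : ℝ} (hδ : 0 < δ) : ∃ C : ℝ, 1 ≤ C ∧ ∀ x : ℝ, 1 ≤ x → (1 + Real.log x) ^ 2 ≤ C * x ^ δ := by
  have hd : 0 < δ / 2 := by positivity
  refine ⟨(1 + 1 / (δ / 2)) ^ 2, one_le_pow₀ (by linarith [one_div_pos.2 hd]), fun x hx => ?_⟩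
  have hx0 : 0 < x := by linarith
  have h1 := Real.log_le_rpow_div hx0.le hd
  have h2 : 1 ≤ x ^ (δ / 2) := Real.one_le_rpow hx hd.le
  have h3 : 1 + Real.log x ≤ (1 + 1 / (δ / 2)) * x ^ (δ / 2) := by
    have e : (1 + 1 / (δ / 2)) * x ^ (δ / 2) = x ^ (δ / 2) + x ^ (δ / 2) / (δ / 2) := by ring
    rw [e]
    linarith
  have h0 : 0 ≤ 1 + Real.log x := by linarith [Real.log_nonneg hx]
  calc (1 + Real.log x) ^ 2 ≤ ((1 + 1 / (δ / 2)) * x ^ (δ / 2)) ^ 2 := by gcongr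
    _ = (1 + 1 / (δ / 2)) ^ 2 * x ^ δ := by
        rw [mul_pow, ← Real.rpow_natCast (x ^ _), ← Real.rpow_mul hx0.le]
        congr 2
        push_cast
        ring

lemma hw_le_one (n : ℕ) : hw n ≤ 1 := by
  unfold hw
  refine Finset.prod_le_one (fun p _ => by positivity) fun p _ => ?_
  rw [div_le_one (by positivity)]
  linarith

lemma hw_nonneg (n : ℕ) : 0 ≤ hw n := Finset.prod_nonneg fun p _ => by positivity

lemma mm_le (X m : ℕ) : 0 ≤ mm X m ∧ mm X m ≤ if IsSquare m then (X : ℝ) else 0 := by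
  unfold mm
  have h1 : 3 / Real.pi ^ 2 ≤ 1 := by
    rw [div_le_one (by positivity)]
    nlinarith [Real.pi_gt_three]
  have h1' : 0 ≤ 3 / Real.pi ^ 2 := by positivity
  have hX : (0:ℝ) ≤ X := Nat.cast_nonneg X
  split_ifs with h
  · have h2 := hw_le_one m
    have h3 := hw_nonneg m
    refine ⟨by positivity, ?_⟩
    calc 3 / Real.pi ^ 2 * X * hw m ≤ 1 * X * 1 := by gcongr
      _ = X := by ring
  · rw [mul_zero]
    exact ⟨le_rfl, le_rfl⟩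

/-- dyadic decomposition -/
lemma dyadic (f : ℕ → ℝ) (hf : ∀ m, 0 ≤ f m) (M0 : ℕ) (hM0 : 1 ≤ M0) (I : ℕ) :
    ∑ m ∈ Finset.Ioc M0 (2 ^ I * M0), f m / m ≤
      ∑ i ∈ Finset.range I, (∑ m ∈ Finset.Ioc (2 ^ i * M0) (2 * (2 ^ i * M0)), f m) / ((2:ℝ) ^ i * M0) := by
  induction I with
  | zero => simp
  | succ I ih =>
    have h1 : M0 ≤ 2 ^ I * M0 := Nat.le_mul_of_pos_left _ (by positivity)
    have h2 : 2 ^ I * M0 ≤ 2 ^ (I + 1) * M0 := Nat.mul_le_mul_right _ (Nat.pow_le_pow_right (by norm_num) (Nat.le_succ I))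
    rw [← Finset.sum_Ioc_consecutive (fun m : ℕ => f m / m) h1 h2, Finset.sum_range_succ]
    have e1 : 2 ^ (I + 1) * M0 = 2 * (2 ^ I * M0) := by ring
    rw [e1]
    refine add_le_add ih ?_
    rw [Finset.sum_div]
    refine Finset.sum_le_sum fun m hm => ?_
    have hm' := (Finset.mem_Ioc.mp hm).1
    have h3 : ((2:ℝ) ^ I * M0) ≤ m := by
      have : ((2 ^ I * M0 : ℕ) : ℝ) ≤ m := by exact_mod_cast hm'.le
      push_cast at this
      exact this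
    have h4 : (0:ℝ) < (2:ℝ) ^ I * M0 := by
      have : (0:ℝ) < M0 := by exact_mod_cast hM0
      positivity
    exact div_le_div_of_nonneg_left (hf m) h4 h3

lemma sum_inv (N : ℕ) : ∑ n ∈ Finset.Icc 1 N, ((n : ℝ))⁻¹ ≤ 1 + Real.log N := by
  have h := harmonic_le_one_add_log N
  rw [harmonic_eq_sum_Icc] at h
  push_cast at h
  exact h

lemma asm (C1 b1 C2 C4 L x1 x2 x3 x4 s1 s2 t2 t3 : ℝ) (hb0 : 0 ≤ b1) (hC2 : 0 ≤ C2) (hL1 : 1 ≤ L)
    (hx1 : 0 ≤ x1) (hx2 : 0 ≤ x2)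
    (k1 : x1 ≤ x3) (k2 : x2 ≤ x3) (k4 : L ^ 2 * x3 ≤ C4 * x4)
    (h1 : s1 ≤ C1 ^ 2 * b1 * L * x1) (h2 : t2 ≤ 3 * b1 * C2 * 3 * L ^ 2 * x3) (h3 : t3 ≤ b1 * L * x2)
    (hB : s2 ≤ 2 * t2 + 2 * t3) : s1 + s2 ≤ (C1 ^ 2 * b1 + 2 * (3 * b1 * C2 * 3) + 2 * b1) * C4 * x4 := by
  have hL0 : 0 ≤ L := by linarith
  have k3 : L ≤ L ^ 2 := by nlinarith
  have m0 : L * x1 ≤ L ^ 2 * x3 := mul_le_mul k3 k1 hx1 (by positivity)
  have m0' : L * x2 ≤ L ^ 2 * x3 := mul_le_mul k3 k2 hx2 (by positivity)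
  have m1 : C1 ^ 2 * b1 * (L * x1) ≤ C1 ^ 2 * b1 * (L ^ 2 * x3) := mul_le_mul_of_nonneg_left m0 (by positivity)
  have m3 : b1 * (L * x2) ≤ b1 * (L ^ 2 * x3) := mul_le_mul_of_nonneg_left m0' hb0
  have m4 : (C1 ^ 2 * b1 + 2 * (3 * b1 * C2 * 3) + 2 * b1) * (L ^ 2 * x3) ≤
      (C1 ^ 2 * b1 + 2 * (3 * b1 * C2 * 3) + 2 * b1) * (C4 * x4) :=
    mul_le_mul_of_nonneg_left k4 (by positivity)
  have e1 : C1 ^ 2 * b1 * L * x1 = C1 ^ 2 * b1 * (L * x1) := by ring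
  have e3 : b1 * L * x2 = b1 * (L * x2) := by ring
  have e4 : (C1 ^ 2 * b1 + 2 * (3 * b1 * C2 * 3) + 2 * b1) * (L ^ 2 * x3) = C1 ^ 2 * b1 * (L ^ 2 * x3) +
    2 * (3 * b1 * C2 * 3 * L ^ 2 * x3) + 2 * (b1 * (L ^ 2 * x3)) := by ring
  have e5 : (C1 ^ 2 * b1 + 2 * (3 * b1 * C2 * 3) + 2 * b1) * C4 * x4 =
    (C1 ^ 2 * b1 + 2 * (3 * b1 * C2 * 3) + 2 * b1) * (C4 * x4) := by ring
  rw [e1] at h1
  rw [e3] at h3
  rw [e5]
  rw [e4] at m4
  linarith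

theorem ES (h : S_AR) (h' : S_LS) : S_ES := by
  intro B
  obtain ⟨C1, hC1, h1⟩ := h (1 / 100) (by norm_num)
  obtain ⟨C2, hC2, h2⟩ := h'
  obtain ⟨C4, hC4, h4⟩ := logp (δ := 1 / 20) (by norm_num)
  set b1 : ℝ := 1 + |B| with hb1
  have hb1' : 1 ≤ b1 := by rw [hb1]; linarith [abs_nonneg B]
  refine ⟨(C1 ^ 2 * b1 + 2 * (3 * b1 * C2 * 3) + 2 * b1) * C4, by positivity, ?_⟩
  intro b X Z hX hZB
  have hX1 : (1:ℝ) ≤ X := by exact_mod_cast hX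
  have hX0 : (0:ℝ) < X := by linarith
  have hlX : 0 ≤ Real.log X := Real.log_nonneg hX1
  rcases Nat.eq_zero_or_pos Z with hZ0 | hZ0
  · subst hZ0
    simp only [Finset.Icc_eq_empty_of_lt, Nat.lt_one_iff, Finset.sum_empty]
    positivity
  have hZ1 : (1:ℝ) ≤ Z := by exact_mod_cast hZ0
  set L : ℝ := 1 + Real.log X with hL
  have hL1 : 1 ≤ L := by rw [hL]; linarith
  have hlZ0 : 0 ≤ Real.log Z := Real.log_nonneg hZ1
  have hlZ : 1 + Real.log Z ≤ b1 * L := by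
    have h5 : Real.log Z ≤ B * Real.log X := by
      have := Real.log_le_log (by linarith) hZB
      rwa [Real.log_rpow hX0] at this
    have h6 : B * Real.log X ≤ |B| * Real.log X := mul_le_mul_of_nonneg_right (le_abs_self B) hlX
    rw [hb1, hL]
    nlinarith [abs_nonneg B]
  -- thresholds
  set M0 : ℕ := ⌊(X : ℝ) ^ (5 / 4 : ℝ)⌋₊ with hM0
  have hXp : 1 ≤ (X : ℝ) ^ (5 / 4 : ℝ) := Real.one_le_rpow hX1 (by norm_num)
  have hM01 : 1 ≤ M0 := Nat.le_floor (by simpa using hXp)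
  have hM0le : (M0 : ℝ) ≤ (X : ℝ) ^ (5 / 4 : ℝ) := Nat.floor_le (by positivity)
  have hM0lt : (X : ℝ) ^ (5 / 4 : ℝ) < M0 + 1 := Nat.lt_floor_add_one _
  have hM0r : (1:ℝ) ≤ M0 := by exact_mod_cast hM01
  have hM0ge : (X : ℝ) ^ (5 / 4 : ℝ) / 2 ≤ M0 := by linarith
  set I : ℕ := Nat.log 2 Z + 1 with hI
  have hZI : Z ≤ 2 ^ I * M0 := by
    have h5 : Z < 2 ^ I := Nat.lt_pow_succ_log_self (by norm_num) Z
    calc Z ≤ 2 ^ I := h5.le
      _ ≤ 2 ^ I * M0 := Nat.le_mul_of_pos_right _ hM01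
  have hIle : (I : ℝ) ≤ 3 * (b1 * L) := by
    have h5 : (Nat.log 2 Z : ℝ) ≤ Real.logb 2 Z := Real.natLog_le_logb Z 2
    have h6 : Real.logb 2 Z ≤ 2 * Real.log Z := by
      rw [Real.logb, div_le_iff₀ (Real.log_pos (by norm_num))]
      have := Real.log_two_gt_d9
      nlinarith
    rw [hI]
    push_cast
    linarith
  -- first part
  have hpart1 : ∑ m ∈ (Finset.Icc 1 Z).filter (fun m => m ≤ M0), ‖Ee b X m‖ ^ 2 / m ≤
      C1 ^ 2 * b1 * L * (X : ℝ) ^ (33 / 20 : ℝ) := by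
    have h5 : ∀ m ∈ (Finset.Icc 1 Z).filter (fun m => m ≤ M0), ‖Ee b X m‖ ^ 2 / m ≤
        C1 ^ 2 * (X : ℝ) ^ (33 / 20 : ℝ) * (m : ℝ)⁻¹ := by
      intro m hm
      rw [Finset.mem_filter, Finset.mem_Icc] at hm
      have hm1 : (1:ℝ) ≤ m := by exact_mod_cast hm.1.1
      have hm0 : (0:ℝ) < m := by linarith
      have h6 := h1 b X m hX hm.1.1
      have h7 : (m : ℝ) ≤ (X : ℝ) ^ (5 / 4 : ℝ) := le_trans (by exact_mod_cast hm.2) hM0le
      have h8 : ((m : ℝ) ^ (1 / 4 + 1 / 100 : ℝ)) ^ 2 ≤ (X : ℝ) ^ (13 / 20 : ℝ) := by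
        rw [← Real.rpow_natCast, ← Real.rpow_mul hm0.le]
        refine (Real.rpow_le_rpow hm0.le h7 (by norm_num)).trans ?_
        rw [← Real.rpow_mul hX0.le]
        refine le_of_eq ?_
        congr 1
        norm_num
      have h9 : ((X : ℝ) ^ (1 / 2 : ℝ)) ^ 2 = X := by
        rw [← Real.rpow_natCast, ← Real.rpow_mul hX0.le]
        norm_num
      have h10 : ‖Ee b X m‖ ^ 2 ≤ C1 ^ 2 * (X : ℝ) ^ (33 / 20 : ℝ) := by
        calc ‖Ee b X m‖ ^ 2 ≤ (C1 * (X : ℝ) ^ (1 / 2 : ℝ) * (m : ℝ) ^ (1 / 4 + 1 / 100 : ℝ)) ^ 2 := by gcongr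
          _ = C1 ^ 2 * ((X : ℝ) ^ (1 / 2 : ℝ)) ^ 2 * ((m : ℝ) ^ (1 / 4 + 1 / 100 : ℝ)) ^ 2 := by ring
          _ ≤ C1 ^ 2 * X * (X : ℝ) ^ (13 / 20 : ℝ) := by rw [h9]; gcongr
          _ = C1 ^ 2 * (X : ℝ) ^ (33 / 20 : ℝ) := by
              rw [mul_assoc, ← Real.rpow_one_add' hX0.le (by norm_num)]
              norm_num
      rw [div_eq_mul_inv]
      exact mul_le_mul_of_nonneg_right h10 (by positivity)
    refine (Finset.sum_le_sum h5).trans ?_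
    rw [← Finset.mul_sum]
    have h6 : ∑ m ∈ (Finset.Icc 1 Z).filter (fun m => m ≤ M0), (m : ℝ)⁻¹ ≤ b1 * L := by
      refine le_trans ?_ ((sum_inv Z).trans hlZ)
      exact Finset.sum_le_sum_of_subset_of_nonneg (Finset.filter_subset _ _) fun _ _ _ => by positivity
    calc C1 ^ 2 * (X : ℝ) ^ (33 / 20 : ℝ) * ∑ m ∈ (Finset.Icc 1 Z).filter (fun m => m ≤ M0), (m : ℝ)⁻¹
        ≤ C1 ^ 2 * (X : ℝ) ^ (33 / 20 : ℝ) * (b1 * L) := by gcongr
      _ = _ := by ring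
  -- second part
  have hsub : (Finset.Icc 1 Z).filter (fun m => ¬ m ≤ M0) ⊆ Finset.Ioc M0 (2 ^ I * M0) := by
    intro m hm
    rw [Finset.mem_filter, Finset.mem_Icc] at hm
    rw [Finset.mem_Ioc]
    exact ⟨not_le.mp hm.2, hm.1.2.trans hZI⟩
  have hpart2 : ∑ m ∈ (Finset.Icc 1 Z).filter (fun m => ¬ m ≤ M0), ‖∑ p ∈ QFs b X, cv p m‖ ^ 2 / m ≤
      3 * b1 * C2 * 3 * L ^ 2 * (X : ℝ) ^ (7 / 4 : ℝ) := by
    have h5 : ∑ m ∈ (Finset.Icc 1 Z).filter (fun m => ¬ m ≤ M0), ‖∑ p ∈ QFs b X, cv p m‖ ^ 2 / m ≤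
        ∑ m ∈ Finset.Ioc M0 (2 ^ I * M0), ‖∑ p ∈ QFs b X, cv p m‖ ^ 2 / m :=
      Finset.sum_le_sum_of_subset_of_nonneg hsub fun m _ _ => by positivity
    refine h5.trans ((dyadic (fun m => ‖∑ p ∈ QFs b X, cv p m‖ ^ 2) (fun m => by positivity) M0 hM01 I).trans ?_)
    have h6 : ∀ i ∈ Finset.range I, (∑ m ∈ Finset.Ioc (2 ^ i * M0) (2 * (2 ^ i * M0)),
        ‖∑ p ∈ QFs b X, cv p m‖ ^ 2) / ((2:ℝ) ^ i * M0) ≤ C2 * 3 * L * (X : ℝ) ^ (7 / 4 : ℝ) := by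
      intro i _
      have h7 := h2 b X (2 ^ i * M0) hX
      have h8 : (0:ℝ) < (2:ℝ) ^ i * M0 := by positivity
      have h9 : (M0 : ℝ) ≤ (2:ℝ) ^ i * M0 := by
        have : (1:ℝ) ≤ (2:ℝ) ^ i := one_le_pow₀ (by norm_num)
        nlinarith
      rw [div_le_iff₀ h8]
      push_cast at h7
      refine h7.trans ?_
      set W : ℝ := (2:ℝ) ^ i * M0 with hW
      have h10 : (X : ℝ) ^ (5 / 4 : ℝ) ≤ 2 * W := by linarith
      have h11 : (X : ℝ) ^ (3 : ℕ) = (X : ℝ) ^ (7 / 4 : ℝ) * (X : ℝ) ^ (5 / 4 : ℝ) := by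
        rw [← Real.rpow_add hX0, ← Real.rpow_natCast]
        norm_num
      have h12 : (X : ℝ) ≤ (X : ℝ) ^ (7 / 4 : ℝ) := by
        conv_lhs => rw [← Real.rpow_one (X : ℝ)]
        exact Real.rpow_le_rpow_of_exponent_le hX1 (by norm_num)
      have h13 : (0:ℝ) ≤ (X : ℝ) ^ (7 / 4 : ℝ) := by positivity
      have h14 : (X : ℝ) ^ 3 * L ≤ 2 * ((X : ℝ) ^ (7 / 4 : ℝ) * W * L) := by
        rw [h11]
        have := mul_le_mul_of_nonneg_left h10 h13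
        nlinarith [mul_le_mul_of_nonneg_right this (by linarith : (0:ℝ) ≤ L)]
      have h15 : (X : ℝ) * W ≤ (X : ℝ) ^ (7 / 4 : ℝ) * W * L := by
        calc (X : ℝ) * W ≤ (X : ℝ) ^ (7 / 4 : ℝ) * W := by gcongr
          _ ≤ (X : ℝ) ^ (7 / 4 : ℝ) * W * L := le_mul_of_one_le_right (by positivity) hL1
      calc C2 * ((X : ℝ) * W + (X : ℝ) ^ 3 * L)
          ≤ C2 * ((X : ℝ) ^ (7 / 4 : ℝ) * W * L + 2 * ((X : ℝ) ^ (7 / 4 : ℝ) * W * L)) := by gcongr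
        _ = C2 * 3 * L * (X : ℝ) ^ (7 / 4 : ℝ) * W := by ring
    refine (Finset.sum_le_sum h6).trans ?_
    rw [Finset.sum_const, Finset.card_range, nsmul_eq_mul]
    calc (I : ℝ) * (C2 * 3 * L * (X : ℝ) ^ (7 / 4 : ℝ)) ≤ (3 * (b1 * L)) * (C2 * 3 * L * (X : ℝ) ^ (7 / 4 : ℝ)) := by
          gcongr
      _ = _ := by ring
  -- third part
  have hpart3 : ∑ m ∈ (Finset.Icc 1 Z).filter (fun m => ¬ m ≤ M0), mm X m ^ 2 / m ≤
      b1 * L * (X : ℝ) ^ (11 / 8 : ℝ) := by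
    have h5 : ∀ m ∈ (Finset.Icc 1 Z).filter (fun m => ¬ m ≤ M0), mm X m ^ 2 / m ≤
        if IsSquare m then (X : ℝ) ^ (11 / 8 : ℝ) * (Real.sqrt m)⁻¹ else 0 := by
      intro m hm
      rw [Finset.mem_filter, Finset.mem_Icc] at hm
      obtain ⟨h6, h7⟩ := mm_le X m
      split_ifs with hsq
      · rw [if_pos hsq] at h7
        have hmM : M0 + 1 ≤ m := by omega
        have h8 : (X : ℝ) ^ (5 / 4 : ℝ) ≤ m := by
          have : ((M0 + 1 : ℕ) : ℝ) ≤ m := by exact_mod_cast hmM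
          push_cast at this
          linarith
        have hm0 : (0:ℝ) < m := by linarith
        have h9 : (X : ℝ) ^ (5 / 8 : ℝ) ≤ Real.sqrt m := by
          refine Real.le_sqrt_of_sq_le ?_
          rw [← Real.rpow_natCast, ← Real.rpow_mul hX0.le]
          refine le_trans (le_of_eq ?_) h8
          norm_num
        have h10 : (0:ℝ) < Real.sqrt m := Real.sqrt_pos.mpr hm0
        have h11 : (m : ℝ) = Real.sqrt m * Real.sqrt m := (Real.mul_self_sqrt hm0.le).symm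
        have h12 : mm X m ^ 2 ≤ (X : ℝ) ^ 2 := by gcongr
        have h13 : (X : ℝ) ^ (2 : ℕ) = (X : ℝ) ^ (11 / 8 : ℝ) * (X : ℝ) ^ (5 / 8 : ℝ) := by
          rw [← Real.rpow_add hX0, ← Real.rpow_natCast]
          norm_num
        rw [div_le_iff₀ hm0]
        calc mm X m ^ 2 ≤ (X : ℝ) ^ 2 := h12
          _ = (X : ℝ) ^ (11 / 8 : ℝ) * (X : ℝ) ^ (5 / 8 : ℝ) := h13
          _ ≤ (X : ℝ) ^ (11 / 8 : ℝ) * Real.sqrt m := by gcongr
          _ = (X : ℝ) ^ (11 / 8 : ℝ) * (Real.sqrt m)⁻¹ * (Real.sqrt m * Real.sqrt m) := by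
              field_simp
          _ = (X : ℝ) ^ (11 / 8 : ℝ) * (Real.sqrt m)⁻¹ * m := by rw [← h11]
      · rw [if_neg hsq] at h7
        have : mm X m = 0 := le_antisymm h7 h6
        rw [this]
        simp
    refine (Finset.sum_le_sum h5).trans ?_
    have h6 : ∑ m ∈ (Finset.Icc 1 Z).filter (fun m => ¬ m ≤ M0),
        (if IsSquare m then (X : ℝ) ^ (11 / 8 : ℝ) * (Real.sqrt m)⁻¹ else 0) ≤
        ∑ j ∈ Finset.Icc 1 Z, (X : ℝ) ^ (11 / 8 : ℝ) * (j : ℝ)⁻¹ := by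
      rw [← Finset.sum_filter]
      have h7 : ∀ m ∈ ((Finset.Icc 1 Z).filter (fun m => ¬ m ≤ M0)).filter (fun m => IsSquare m),
          (X : ℝ) ^ (11 / 8 : ℝ) * (Real.sqrt m)⁻¹ = (X : ℝ) ^ (11 / 8 : ℝ) * ((Nat.sqrt m : ℕ) : ℝ)⁻¹ := by
        intro m hm
        rw [Finset.mem_filter] at hm
        obtain ⟨r, hr⟩ := hm.2
        subst hr
        rw [Nat.sqrt_eq]
        push_cast
        rw [Real.sqrt_mul_self (Nat.cast_nonneg r)]
      rw [Finset.sum_congr rfl h7]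
      have h8 : Set.InjOn (fun m => Nat.sqrt m)
          (((Finset.Icc 1 Z).filter (fun m => ¬ m ≤ M0)).filter (fun m => IsSquare m) : Finset ℕ) := by
        intro m hm m' hm' he
        rw [Finset.mem_coe, Finset.mem_filter] at hm hm'
        obtain ⟨r, hr⟩ := hm.2
        obtain ⟨r', hr'⟩ := hm'.2
        subst hr
        subst hr'
        simp only [Nat.sqrt_eq] at he
        rw [he]
      rw [← Finset.sum_image (g := fun m => Nat.sqrt m) (f := fun j : ℕ => (X : ℝ) ^ (11 / 8 : ℝ) * (j : ℝ)⁻¹)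
        (by exact h8)]
      refine Finset.sum_le_sum_of_subset_of_nonneg ?_ fun _ _ _ => by positivity
      intro j hj
      rw [Finset.mem_image] at hj
      obtain ⟨m, hm, rfl⟩ := hj
      rw [Finset.mem_filter, Finset.mem_filter, Finset.mem_Icc] at hm
      rw [Finset.mem_Icc]
      exact ⟨Nat.sqrt_pos.mpr hm.1.1.1, (Nat.sqrt_le_self m).trans hm.1.1.2⟩
    refine h6.trans ?_
    rw [← Finset.mul_sum]
    have h7 := (sum_inv Z).trans hlZ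
    calc (X : ℝ) ^ (11 / 8 : ℝ) * ∑ j ∈ Finset.Icc 1 Z, (j : ℝ)⁻¹ ≤ (X : ℝ) ^ (11 / 8 : ℝ) * (b1 * L) := by gcongr
      _ = _ := by ring
  -- assembly
  have hE2 : ∀ m ∈ (Finset.Icc 1 Z).filter (fun m => ¬ m ≤ M0), ‖Ee b X m‖ ^ 2 / m ≤
      2 * (‖∑ p ∈ QFs b X, cv p m‖ ^ 2 / m) + 2 * (mm X m ^ 2 / m) := by
    intro m _
    have h5 : ‖Ee b X m‖ ≤ ‖∑ p ∈ QFs b X, cv p m‖ + mm X m := by
      unfold Ee
      refine (norm_sub_le _ _).trans ?_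
      rw [Complex.norm_real, Real.norm_of_nonneg (mm_le X m).1]
    have h6 : ‖Ee b X m‖ ^ 2 ≤ 2 * ‖∑ p ∈ QFs b X, cv p m‖ ^ 2 + 2 * mm X m ^ 2 := by
      have := (mm_le X m).1
      calc ‖Ee b X m‖ ^ 2 ≤ (‖∑ p ∈ QFs b X, cv p m‖ + mm X m) ^ 2 := by gcongr
        _ ≤ _ := by nlinarith [sq_nonneg (‖∑ p ∈ QFs b X, cv p m‖ - mm X m)]
    calc ‖Ee b X m‖ ^ 2 / m ≤ (2 * ‖∑ p ∈ QFs b X, cv p m‖ ^ 2 + 2 * mm X m ^ 2) / m := by gcongr
      _ = _ := by ring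
  rw [← Finset.sum_filter_add_sum_filter_not (Finset.Icc 1 Z) (fun m => m ≤ M0)]
  have hB := (Finset.sum_le_sum hE2)
  rw [Finset.sum_add_distrib, ← Finset.mul_sum, ← Finset.mul_sum] at hB
  have k1 : (X : ℝ) ^ (33 / 20 : ℝ) ≤ (X : ℝ) ^ (7 / 4 : ℝ) := Real.rpow_le_rpow_of_exponent_le hX1 (by norm_num)
  have k2 : (X : ℝ) ^ (11 / 8 : ℝ) ≤ (X : ℝ) ^ (7 / 4 : ℝ) := Real.rpow_le_rpow_of_exponent_le hX1 (by norm_num)
  have k3 : L ≤ L ^ 2 := by nlinarith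
  have k4 : L ^ 2 * (X : ℝ) ^ (7 / 4 : ℝ) ≤ C4 * (X : ℝ) ^ (9 / 5 : ℝ) := by
    calc L ^ 2 * (X : ℝ) ^ (7 / 4 : ℝ) ≤ C4 * (X : ℝ) ^ (1 / 20 : ℝ) * (X : ℝ) ^ (7 / 4 : ℝ) := by
          have := h4 X hX1
          gcongr
      _ = C4 * (X : ℝ) ^ (9 / 5 : ℝ) := by
          rw [mul_assoc, ← Real.rpow_add hX0]
          norm_num
  exact asm C1 b1 C2 C4 L ((X : ℝ) ^ (33 / 20 : ℝ)) ((X : ℝ) ^ (11 / 8 : ℝ)) ((X : ℝ) ^ (7 / 4 : ℝ))
    ((X : ℝ) ^ (9 / 5 : ℝ)) _ _ _ _ (by linarith) hC2.le hL1 (by positivity) (by positivity)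
    k1 k2 k4 hpart1 hpart2 hpart3 hB

end

end Pool.Agent.Y986.QF
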