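import Pool.Agent.Y752.SR.K4
import Pool.Agent.Y752.QF.Stm

set_option autoImplicit false

/-! Project QF: the sum over the hyperbolic region and the product. -/

namespace Pool.Agent.Y986.QF

open MeasureTheory Set Filter Complex
open Pool.Agent.TH612.GS (mP zN)
open Pool.Agent.TH612.CF (pw pw_apply pw_mult)
open Pool.Agent.Y752.QF
open Pool.Agent.Y752.SR (TT mem_TT TT_pos XX XX_expand lx fx fx_pos dvd_fx prod_lx chs chs_mul sg tt_sum logp_le tls)

noncomputable section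

variable {k : ℕ}

/-- doubled shifts -/
def dbl (γ : Fin k → ℝ) : Fin k ⊕ Fin k → ℝ := Sum.elim γ (fun j => -γ j)

lemma lx_dbl (γ : Fin k → ℝ) (e : Fin k × Fin k) : lx (dbl γ) e = -le γ e := by
  unfold lx dbl le
  simp only [Sum.elim_inl, Sum.elim_inr]
  push_cast
  ring

lemma XX2_eq (γ : Fin k → ℝ) : XX2 γ = XX (Ed k) (dbl γ) := by
  unfold XX2 XX
  exact Finset.prod_congr rfl fun e _ => by rw [lx_dbl]

/-- the exponents of the variables -/
def gx (ν : Fin k × Fin k → ℕ) (j : Fin k) : ℕ := fx ν (Sum.inl j) * fx ν (Sum.inr j)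

lemma prod_dbl (γ : Fin k → ℝ) {ν : Fin k × Fin k → ℕ} (h : ∀ e, 1 ≤ ν e) :
    ∏ e, (ν e : ℂ) ^ (lx (dbl γ) e) = ∏ j, chs true (gx ν j) (γ j) := by
  rw [prod_lx (dbl γ) h, Fintype.prod_sum_type, ← Finset.prod_mul_distrib]
  refine Finset.prod_congr rfl fun j _ => ?_
  unfold gx
  rw [chs_mul]
  congr 1
  unfold chs sg dbl
  simp only [Sum.elim_inr, Bool.false_eq_true, if_false, if_true]
  congr 1
  push_cast
  ring

lemma gx_pos {ν : Fin k × Fin k → ℕ} (h : ∀ e, 1 ≤ ν e) (j : Fin k) : 1 ≤ gx ν j :=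
  Nat.mul_pos (fx_pos h _) (fx_pos h _)

lemma gx_le {N : ℕ} (hN : 1 ≤ N) {ν : Fin k × Fin k → ℕ} (h : ν ∈ TT (Ed k) N) (j : Fin k) : gx ν j ≤ N ^ (k + 1) := by
  have hm := mem_TT.mp h
  have hle : ∀ e, ν e ≤ N := fun e => by
    by_cases he : e ∈ Ed k
    · exact (hm.1 e he).2
    · rw [hm.2 e he]; exact hN
  have e1 : gx ν j = ∏ l, (ν (j, l) * ν (l, j)) := by
    unfold gx fx
    simp only [Sum.elim_inl, Sum.elim_inr]
    rw [Finset.prod_mul_distrib]
  rw [e1]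
  have e2 : ∀ l ∈ (Finset.univ : Finset (Fin k)), ν (j, l) * ν (l, j) ≤ N * (if l = j then N else 1) := by
    intro l _
    by_cases hl : l = j
    · rw [if_pos hl]
      exact Nat.mul_le_mul (hle _) (hle _)
    · rw [if_neg hl, mul_one]
      rcases lt_or_gt_of_ne hl with h1 | h1
      · have : (j, l) ∉ Ed k := by
          unfold Ed
          rw [Finset.mem_filter]
          rintro ⟨_, h2⟩
          exact absurd h1 (not_lt.mpr h2)
        rw [hm.2 _ this, one_mul]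
        exact hle _
      · have : (l, j) ∉ Ed k := by
          unfold Ed
          rw [Finset.mem_filter]
          rintro ⟨_, h2⟩
          exact absurd h1 (not_lt.mpr h2)
        rw [hm.2 _ this, mul_one]
        exact hle _
  refine (Finset.prod_le_prod' e2).trans ?_
  rw [Finset.prod_mul_distrib, Finset.prod_const, Finset.prod_ite_eq' Finset.univ j, if_pos (Finset.mem_univ j),
    Finset.card_univ, Fintype.card_fin, pow_succ]

/-- the coefficient of a tuple -/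
def cc (ν : Fin k × Fin k → ℕ) : ℂ := ((∏ e, ν e : ℕ) : ℂ)⁻¹

lemma QQ2_expand (γ : Fin k → ℝ) (N : ℕ) :
    QQ2 N γ = ∑ ν ∈ TT (Ed k) N, cc ν * ∏ j, chs true (gx ν j) (γ j) := by
  have e1 : ∀ ν ∈ TT (Ed k) N, cc ν * ∏ j, chs true (gx ν j) (γ j) =
      ∏ e, ((ν e : ℂ)⁻¹ * (ν e : ℂ) ^ (lx (dbl γ) e)) := by
    intro ν hν
    rw [← prod_dbl γ (TT_pos hν), Finset.prod_mul_distrib]
    unfold cc
    congr 1
    rw [Finset.prod_inv_distrib]
    push_cast
    rfl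
  rw [Finset.sum_congr rfl e1]
  have e1' : ∑ ν ∈ TT (Ed k) N, ∏ e, ((ν e : ℂ)⁻¹ * (ν e : ℂ) ^ (lx (dbl γ) e)) =
      ∏ e : Fin k × Fin k, ∑ x ∈ (if e ∈ Ed k then Finset.Icc 1 N else {1}), ((x : ℂ)⁻¹ * (x : ℂ) ^ (lx (dbl γ) e)) := by
    unfold TT
    rw [Finset.prod_univ_sum]
  rw [e1']
  unfold QQ2
  rw [← Finset.prod_filter_mul_prod_filter_not Finset.univ (fun e : Fin k × Fin k => e ∈ Ed k)]
  have e2 : ∏ e ∈ Finset.univ.filter (fun e : Fin k × Fin k => ¬ e ∈ Ed k),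
      ∑ x ∈ (if e ∈ Ed k then Finset.Icc 1 N else {1}), ((x : ℂ)⁻¹ * (x : ℂ) ^ (lx (dbl γ) e)) = 1 := by
    refine Finset.prod_eq_one fun e he => ?_
    rw [if_neg (Finset.mem_filter.mp he).2, Finset.sum_singleton]
    simp
  rw [e2, mul_one]
  have e3 : Finset.univ.filter (fun e : Fin k × Fin k => e ∈ Ed k) = Ed k := by
    ext e; simp
  rw [e3]
  refine Finset.prod_congr rfl fun e he => ?_
  rw [if_pos he]
  unfold zN
  refine Finset.sum_congr rfl fun n hn => ?_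
  have hn1 := (Finset.mem_Icc.1 hn).1
  have hn0 : (n : ℂ) ≠ 0 := by exact_mod_cast (by omega : n ≠ 0)
  rw [lx_dbl, neg_add, Complex.cpow_add _ _ hn0, Complex.cpow_neg_one]

lemma PP2_expand (γ : Fin k → ℝ) {N W : ℕ} (hWN : W ≤ N) :
    PP2 W γ = ∑ ν ∈ (TT (Ed k) N).filter (fun ν => ∏ e, ν e ≤ W), cc ν * ∏ j, chs true (gx ν j) (γ j) := by
  unfold PP2
  have hmaps : ∀ ν ∈ (TT (Ed k) N).filter (fun ν => ∏ e, ν e ≤ W), ∏ e, ν e ∈ Finset.Icc 1 W := by
    intro ν hν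
    rw [Finset.mem_filter] at hν
    rw [Finset.mem_Icc]
    have h0 : 0 < ∏ e, ν e := Finset.prod_pos fun e _ => Nat.lt_of_succ_le (TT_pos hν.1 e)
    exact ⟨h0, hν.2⟩
  rw [← Finset.sum_fiberwise_of_maps_to hmaps]
  refine Finset.sum_congr rfl fun m hm => ?_
  have hm' := Finset.mem_Icc.1 hm
  rw [XX2_eq, XX_expand (dbl γ) N (Ed k) m hm'.1 (hm'.2.trans hWN), Finset.sum_div, Finset.filter_filter]
  have e1 : (TT (Ed k) N).filter (fun ν => ∏ e, ν e ≤ W ∧ ∏ e, ν e = m) =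
      (TT (Ed k) N).filter (fun ν => ∏ e, ν e = m) := by
    refine Finset.filter_congr fun ν _ => ?_
    constructor
    · exact fun h => h.2
    · exact fun h => ⟨by rw [h]; exact hm'.2, h⟩
  rw [e1]
  refine Finset.sum_congr rfl fun ν hν => ?_
  rw [Finset.mem_filter] at hν
  rw [← prod_dbl γ (TT_pos hν.1)]
  unfold cc
  rw [hν.2, div_eq_inv_mul]

lemma diff_expand (γ : Fin k → ℝ) {N W : ℕ} (hWN : W ≤ N) :
    QQ2 N γ - PP2 W γ = ∑ ν ∈ (TT (Ed k) N).filter (fun ν => ¬ ∏ e, ν e ≤ W),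
      cc ν * ∏ j, chs true (gx ν j) (γ j) := by
  rw [QQ2_expand, PP2_expand γ hWN,
    ← Finset.sum_filter_add_sum_filter_not (TT (Ed k) N) (fun ν => ∏ e, ν e ≤ W)]
  ring

/-- the largest number of divisors up to `H` -/
def EH (H : ℝ) : ℕ := (Finset.Icc 1 ⌊H⌋₊).sup fun M => M.divisors.card

lemma EH_le {δ : ℝ} (hδ : 0 < δ) (m : ℕ) : ∃ C : ℝ, 1 ≤ C ∧ ∀ H : ℝ, 1 ≤ H → (EH H : ℝ) ^ m ≤ C * H ^ δ := by
  obtain ⟨C, hC0, hC⟩ := Pool.Agent.H510R2.divisor_bound (δ / (m + 1)) (by positivity)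
  refine ⟨(max C 1) ^ m, one_le_pow₀ (le_max_right _ _), fun H hH => ?_⟩
  have hH0 : 0 < H := by linarith
  have hne : (Finset.Icc 1 ⌊H⌋₊).Nonempty := ⟨1, Finset.mem_Icc.2 ⟨le_rfl, Nat.le_floor (by simpa using hH)⟩⟩
  obtain ⟨M, hM, he⟩ := Finset.exists_mem_eq_sup _ hne fun M : ℕ => M.divisors.card
  have hM' := Finset.mem_Icc.1 hM
  have e1 : (EH H : ℝ) = M.divisors.card := by
    unfold EH
    rw [he]
  have hMH : (M : ℝ) ≤ H := (Nat.le_floor_iff hH0.le).mp hM'.2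
  have h1 : (EH H : ℝ) ≤ max C 1 * H ^ (δ / (m + 1)) := by
    rw [e1]
    refine (hC M hM'.1).trans ?_
    have h2 : (M : ℝ) ^ (δ / (m + 1)) ≤ H ^ (δ / (m + 1)) := Real.rpow_le_rpow (by positivity) hMH (by positivity)
    have h3 : 0 ≤ (M : ℝ) ^ (δ / (m + 1)) := by positivity
    exact mul_le_mul (le_max_left _ _) h2 h3 (by positivity)
  calc (EH H : ℝ) ^ m ≤ (max C 1 * H ^ (δ / (m + 1))) ^ m := by gcongr
    _ = (max C 1) ^ m * H ^ (δ / (m + 1) * m) := by
        rw [mul_pow, ← Real.rpow_natCast (H ^ _), ← Real.rpow_mul hH0.le]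
    _ ≤ _ := by
        refine mul_le_mul_of_nonneg_left ?_ (by positivity)
        refine Real.rpow_le_rpow_of_exponent_le hH ?_
        rw [div_mul_eq_mul_div, div_le_iff₀ (by positivity)]
        nlinarith

theorem RR : S_RR := by
  intro k ε hε
  obtain ⟨C1, hC1, hMV⟩ := Pool.Agent.TH928.GS.t_MV
  obtain ⟨C2, hC2, hE⟩ := EH_le (δ := ε / 2) (by positivity) (k * k)
  obtain ⟨C3, hC3, hL⟩ := logp_le (δ := ε / 2) (by positivity) (k * k)
  have hC20 : 0 < C2 := by linarith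
  have hC30 : 0 < C3 := by linarith
  refine ⟨max 1 ((2 * C1) ^ k * C2 * C3), le_max_left _ _, ?_⟩
  intro H N W hW hWN hNH
  classical
  have hN1' : 1 ≤ N := hW.trans hWN
  have hN1 : (1:ℝ) ≤ N := by exact_mod_cast hN1'
  have hW0 : (0:ℝ) < W := by exact_mod_cast hW
  have hNH' : (N : ℝ) ≤ H := by
    refine le_trans ?_ hNH
    have := pow_le_pow_right₀ hN1 (show 1 ≤ k + 1 by omega)
    simpa using this
  have hH : 1 ≤ H := hN1.trans hNH'
  have hH0 : 0 < H := by linarith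
  set s := (TT (Ed k) N).filter (fun ν => ¬ ∏ e, ν e ≤ W) with hs
  have hgle : ∀ q ∈ s, ∀ i, (gx q i : ℝ) ≤ H := by
    intro q hq i
    have h1 := gx_le hN1' (Finset.mem_filter.mp hq).1 i
    have h2 : (gx q i : ℝ) ≤ ((N ^ (k + 1) : ℕ) : ℝ) := by exact_mod_cast h1
    push_cast at h2
    exact h2.trans hNH
  have h1 := tls hC1 hMV hH k (fun _ => true) s (fun q => gx q) cc (EH H ^ (k * k))
    (fun q hq i => ⟨gx_pos (TT_pos (Finset.mem_filter.mp hq).1) i, hgle q hq i⟩)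
    (fun q hq => by
      have h2 : (s.filter fun q' => gx q' = gx q).card ≤
          (Fintype.piFinset fun e : Fin k × Fin k => (gx q e.1).divisors).card := by
        refine Finset.card_le_card ?_
        intro q' hq'
        rw [Finset.mem_filter] at hq'
        rw [Fintype.mem_piFinset]
        intro e
        rw [Nat.mem_divisors]
        refine ⟨?_, by have := gx_pos (TT_pos (Finset.mem_filter.mp hq).1) e.1; omega⟩
        rw [← congrFun hq'.2 e.1]
        exact (dvd_fx q' e).trans (Dvd.intro _ rfl)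
      refine h2.trans ?_
      rw [Fintype.card_piFinset]
      have h3 : ∏ e : Fin k × Fin k, EH H = EH H ^ (k * k) := by
        rw [Finset.prod_const, Finset.card_univ, Fintype.card_prod, Fintype.card_fin]
      rw [← h3]
      refine Finset.prod_le_prod' fun e _ => ?_
      unfold EH
      refine Finset.le_sup (f := fun M : ℕ => M.divisors.card) (Finset.mem_Icc.2
        ⟨gx_pos (TT_pos (Finset.mem_filter.mp hq).1) e.1, Nat.le_floor (hgle q hq e.1)⟩))
  simp only [diff_expand _ hWN]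
  refine h1.trans (ENNReal.ofReal_le_ofReal ?_)
  push_cast
  have h4 : ∑ q ∈ s, ‖cc q‖ ^ 2 ≤ (1 + Real.log N) ^ (k * k) / W := by
    have h5 : ∀ q ∈ s, ‖cc q‖ ^ 2 ≤ (∏ e, ((q e : ℕ) : ℝ)⁻¹) * (1 / W) := by
      intro q hq
      have hq1 := Finset.mem_filter.mp hq
      have hWq : W < ∏ e, q e := not_le.mp hq1.2
      have e1 : ‖cc q‖ = ((∏ e, q e : ℕ) : ℝ)⁻¹ := by
        unfold cc
        rw [norm_inv, Complex.norm_natCast]
      have e2 : ∏ e, ((q e : ℕ) : ℝ)⁻¹ = ((∏ e, q e : ℕ) : ℝ)⁻¹ := by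
        rw [Finset.prod_inv_distrib]
        push_cast
        rfl
      rw [e1, e2, pow_two]
      refine mul_le_mul_of_nonneg_left ?_ (by positivity)
      rw [← one_div]
      refine one_div_le_one_div_of_le hW0 ?_
      exact_mod_cast hWq.le
    refine (Finset.sum_le_sum h5).trans ?_
    rw [← Finset.sum_mul, div_eq_mul_one_div ((1 + Real.log N) ^ (k * k)) (W : ℝ)]
    have hW1 : (0:ℝ) ≤ 1 / W := by positivity
    refine mul_le_mul_of_nonneg_right ?_ hW1
    refine le_trans ?_ (tt_sum (Ed k) hN1' le_rfl)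
    refine Finset.sum_le_sum_of_subset_of_nonneg (Finset.filter_subset _ _) fun q _ _ => ?_
    exact Finset.prod_nonneg fun e _ => inv_nonneg.mpr (Nat.cast_nonneg (q e))
  have h2 := hE H hH
  have h3 := hL N hN1
  have h3' : (N : ℝ) ^ (ε / 2) ≤ H ^ (ε / 2) := Real.rpow_le_rpow (by linarith) hNH' (by positivity)
  have h6 : (1 + Real.log N) ^ (k * k) ≤ C3 * H ^ (ε / 2) := h3.trans (mul_le_mul_of_nonneg_left h3' hC30.le)
  have hHe : H ^ (ε / 2) * H ^ (ε / 2) = H ^ ε := by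
    rw [← Real.rpow_add hH0]
    congr 1
    ring
  have h7 : 0 ≤ ∑ q ∈ s, ‖cc q‖ ^ 2 := Finset.sum_nonneg fun q _ => pow_nonneg (norm_nonneg (cc q)) 2
  calc (2 * C1 * H) ^ k * ((EH H : ℝ) ^ (k * k) * ∑ q ∈ s, ‖cc q‖ ^ 2)
      ≤ (2 * C1 * H) ^ k * ((C2 * H ^ (ε / 2)) * (C3 * H ^ (ε / 2) / W)) := by
        refine mul_le_mul_of_nonneg_left ?_ (by positivity)
        refine mul_le_mul h2 (h4.trans ?_) h7 (by positivity)
        gcongr
    _ = ((2 * C1) ^ k * C2 * C3) * H ^ k * (H ^ (ε / 2) * H ^ (ε / 2)) / W := by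
        rw [mul_pow (2 * C1) H]
        ring
    _ = ((2 * C1) ^ k * C2 * C3) * H ^ k * H ^ ε / W := by rw [hHe]
    _ ≤ _ := by
        gcongr
        exact le_max_right _ _

end

end Pool.Agent.Y986.QF
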